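import Pool.Agent.helper88.RL.SpecW
set_option autoImplicit false
namespace Pool.Agent.RL
open Finset Pool.Agent.helper3.FT Pool.Agent.T6 Pool.Agent.RF

theorem VRK_norm (k : OO) : k.norm = k.re ^ 2 + k.re * k.im - k.im ^ 2 := by
  rw [QuadraticAlgebra.norm_def]
  ring

theorem VRK : VRK_stmt := by
  refine ⟨?_, ?_⟩
  · intro δ k hδ hc
    haveI : NeZero δ := ⟨by omega⟩
    have hc1 : Nat.Coprime δ k.norm.natAbs := Nat.Coprime.coprime_mul_right_right hc
    have hc2 : Nat.Coprime δ k.im.natAbs := Nat.Coprime.coprime_mul_left_right hc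
    have i1 : IsCoprime (k.norm) (δ : ℤ) := by
      rw [Int.isCoprime_iff_nat_coprime, Int.natAbs_natCast]
      exact hc1.symm
    have i2 : IsCoprime (δ : ℤ) (k.im) := by
      rw [Int.isCoprime_iff_nat_coprime, Int.natAbs_natCast]
      exact hc2
    have hu : IsUnit ((k.im : ℤ) : ZMod δ) := (ZMod.coe_int_isUnit_iff_isCoprime k.im δ).2 i2
    have hr : rk δ k = ((k.re : ZMod δ) * (k.im : ZMod δ)⁻¹).val := by
      unfold rk
      rw [if_neg (by omega)]
    have hcast : ((rk δ k : ℕ) : ZMod δ) = (k.re : ZMod δ) * (k.im : ZMod δ)⁻¹ := by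
      rw [hr, ZMod.natCast_zmod_val]
    have hdvd : (δ : ℤ) ∣ k.im * (rk δ k) - k.re := by
      rw [← ZMod.intCast_zmod_eq_zero_iff_dvd]
      push_cast
      rw [hcast]
      have h1 : (k.im : ZMod δ) * (k.im : ZMod δ)⁻¹ = 1 := ZMod.mul_inv_of_unit _ hu
      linear_combination (k.re : ZMod δ) * h1
    refine ⟨hdvd, ?_, ?_⟩
    · rw [hr]
      exact ZMod.val_lt _
    · set r : ℕ := rk δ k with hrd
      obtain ⟨c, hc3⟩ := hdvd
      have h1 : k.norm = k.im ^ 2 * ((r : ℤ) ^ 2 + r - 1) + (δ : ℤ) * (- c * (k.im * r + k.re) - c * k.im) := by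
        rw [VRK_norm]
        have h2 : k.re = k.im * r - δ * c := by linarith
        rw [h2]
        ring
      rw [h1] at i1
      have i3 : IsCoprime (k.im ^ 2 * ((r : ℤ) ^ 2 + r - 1)) (δ : ℤ) := i1.of_add_mul_left_left
      have i4 : IsCoprime ((r : ℤ) ^ 2 + r - 1) (δ : ℤ) := i3.of_mul_left_right
      unfold Cop nr
      rw [Int.isCoprime_iff_nat_coprime, Int.natAbs_natCast] at i4
      exact i4
  · intro Q k hQ hk
    have hlo := hk.lo
    have him : k.im ≠ 0 := by
      intro h0
      have hs : star k = k := by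
        apply QuadraticAlgebra.ext
        · simp [h0]
        · simp [h0]
      have hco := hk.co
      rw [hs, isCoprime_self] at hco
      have hn : IsUnit k.norm := hco.map QuadraticAlgebra.norm
      rw [Int.isUnit_iff_natAbs_eq] at hn
      omega
    unfold mk
    have h1 : 0 < k.im.natAbs := Int.natAbs_pos.2 him
    have h2 : 0 < k.norm.natAbs := by omega
    exact Nat.mul_pos h2 h1

end Pool.Agent.RL
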